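import Mathlib

/-! The completely additive function `D` with `D 2 = 1` and `D p = D (p - 1)` for odd primes. -/

set_option autoImplicit false

namespace Pool.Agent.Lib.MP_b09490_nt

open Finset

/-- The values at primes. -/
def dp (p : ℕ) : ℕ := if p = 2 then 1 else ∑ q : Fin p, (p - 1).factorization q * dp q
termination_by p
decreasing_by exact q.2

/-- The completely additive extension. -/
def D (n : ℕ) : ℕ := n.factorization.sum fun q k => k * dp q

theorem D_mul {m n : ℕ} (hm : m ≠ 0) (hn : n ≠ 0) : D (m * n) = D m + D n := by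
  unfold D
  rw [Nat.factorization_mul hm hn, Finsupp.sum_add_index']
  · simp
  · intro a b c; rw [add_mul]

theorem D_one : D 1 = 0 := by simp [D]

theorem D_prime {p : ℕ} (hp : p.Prime) : D p = dp p := by
  unfold D
  rw [hp.factorization, Finsupp.sum_single_index] <;> simp

theorem D_two : D 2 = 1 := by rw [D_prime Nat.prime_two, dp, if_pos rfl]

theorem D_pred {p : ℕ} (hp : p.Prime) (h2 : p ≠ 2) : D p = D (p - 1) := by
  rw [D_prime hp, dp, if_neg h2,
    Fin.sum_univ_eq_sum_range (fun q => (p - 1).factorization q * dp q), D,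
    Finsupp.sum_of_support_subset _ (s := range p)]
  · intro q hq
    have h1 := Nat.le_of_mem_primeFactors (show q ∈ (p - 1).primeFactors from hq)
    have := hp.two_le
    exact mem_range.2 (by omega)
  · intro q _; simp

theorem D_two_pow (a : ℕ) : D (2 ^ a) = a := by
  induction a with
  | zero => exact D_one
  | succ a ih => rw [pow_succ, D_mul (by positivity) two_ne_zero, ih, D_two]

theorem two_pow_D_le : ∀ n : ℕ, n ≠ 0 → 2 ^ D n ≤ n := by
  intro n
  induction n using Nat.strong_induction_on with
  | _ n ih =>
    intro hn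
    by_cases h1 : n = 1
    · subst h1; rw [D_one]; rfl
    by_cases hp : n.Prime
    · by_cases h2 : n = 2
      · subst h2; rw [D_two]; rfl
      · have := hp.two_le
        rw [D_pred hp h2]
        exact (ih (n - 1) (by omega) (by omega)).trans (by omega)
    · obtain ⟨a, b, ha, hb, rfl⟩ := (Nat.not_prime_iff_exists_mul_eq (by omega)).1 hp
      have ha0 : a ≠ 0 := left_ne_zero_of_mul hn
      have hb0 : b ≠ 0 := right_ne_zero_of_mul hn
      rw [D_mul ha0 hb0, pow_add]
      exact Nat.mul_le_mul (ih a ha ha0) (ih b hb hb0)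

theorem D_totient : ∀ n : ℕ, n ≠ 0 → D n.totient + (if 2 ∣ n then 1 else 0) = D n := by
  intro n
  induction n using induction_on_primes with
  | zero => intro h; exact absurd rfl h
  | one => intro _; simp
  | prime_mul p m hp ih =>
    intro hn
    have hm : m ≠ 0 := right_ne_zero_of_mul hn
    have hφ : m.totient ≠ 0 := (Nat.totient_pos.2 (Nat.pos_of_ne_zero hm)).ne'
    have ih := ih hm
    rw [D_mul hp.ne_zero hm]
    by_cases h : p ∣ m
    · rw [Nat.totient_mul_of_prime_of_dvd hp h, D_mul hp.ne_zero hφ]
      have : 2 ∣ p * m ↔ 2 ∣ m := by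
        refine ⟨fun h2 => ?_, fun h2 => h2.mul_left _⟩
        rcases (Nat.Prime.dvd_mul Nat.prime_two).1 h2 with h3 | h3
        · exact h3.trans h
        · exact h3
      simp only [this]; omega
    · have hp1 : p - 1 ≠ 0 := by have := hp.two_le; omega
      rw [Nat.totient_mul_of_prime_of_not_dvd hp h, D_mul hp1 hφ]
      by_cases h2 : p = 2
      · subst h2
        rw [if_neg h] at ih
        rw [if_pos (dvd_mul_right _ _), D_two, show 2 - 1 = 1 from rfl, D_one]; omega
      · have : 2 ∣ p * m ↔ 2 ∣ m := by
          refine ⟨fun h3 => ?_, fun h3 => h3.mul_left _⟩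
          rcases (Nat.Prime.dvd_mul Nat.prime_two).1 h3 with h4 | h4
          · exact absurd ((Nat.prime_dvd_prime_iff_eq Nat.prime_two hp).1 h4).symm h2
          · exact h4
        simp only [this]
        rw [D_pred hp h2]; omega

theorem iterate_D : ∀ n : ℕ, n ≠ 0 → Nat.totient^[D n + if 2 ∣ n then 0 else 1] n = 1 := by
  intro n
  induction n using Nat.strong_induction_on with
  | _ n ih =>
    intro hn
    by_cases h1 : n = 1
    · subst h1; simp [D_one]
    by_cases h2 : n = 2
    · subst h2; simp [D_two]
    have hφ : n.totient ≠ 0 := (Nat.totient_pos.2 (Nat.pos_of_ne_zero hn)).ne'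
    have h3 := ih n.totient (Nat.totient_lt n (by omega)) hφ
    rw [if_pos (Nat.totient_even (by omega)).two_dvd, add_zero] at h3
    have h4 := D_totient n hn
    have : (D n + if 2 ∣ n then 0 else 1) = D n.totient + 1 := by split_ifs at h4 ⊢ <;> omega
    rw [this, Function.iterate_succ_apply, h3]

theorem iterate_D_succ {n : ℕ} (hn : n ≠ 0) : Nat.totient^[D n + 1] n = 1 := by
  have h := iterate_D n hn
  split_ifs at h
  · rw [add_zero] at h
    rw [Function.iterate_succ_apply', h, Nat.totient_one]
  · exact h

end Pool.Agent.Lib.MP_b09490_nt
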