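import Pool.Agent.Lib.MP_b09490_nt.Rank

/-! The recursion over the primes and the bound for the sum of the weights. -/

set_option autoImplicit false

noncomputable section

namespace Pool.Agent.Lib.MP_b09490_nt

open Finset

/-- The contribution of a large prime. -/
def FF (l : ℝ) (A q v : ℕ) : ℝ := if v.Prime ∧ q < v then W l A v * gs v else 0

section

variable {l : ℝ} (hl : 0 < l) (hk : l * (2461 / 2000) < 1) (A : ℕ)

include hl in
theorem FF_nonneg (q v : ℕ) : 0 ≤ FF l A q v := by
  unfold FF; split_ifs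
  · exact mul_nonneg (W_nonneg hl A v) (gs_nonneg v)
  · exact le_rfl

include hl in
theorem FF_le (q a : ℕ) {m : ℕ} (hm : m ≠ 0) : FF l A q (2 ^ (1 + a) * m + 1) ≤
    W l A m * (l ^ (1 + a) * gs (2 ^ (1 + a) * m + 1)) := by
  unfold FF; split_ifs with h
  · have h2 : 2 ^ (1 + a) * m + 1 ≠ 2 := by rw [pow_add, mul_assoc]; omega
    have := W_pred hl A h.1 h2
    rw [Nat.add_sub_cancel, W_mul A (by positivity) hm, W_two_pow] at this
    calc _ ≤ l ^ (1 + a) * W l A m * gs (2 ^ (1 + a) * m + 1) :=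
          mul_le_mul_of_nonneg_right this (gs_nonneg _)
      _ = _ := by ring
  · exact mul_nonneg (W_nonneg hl A m) (mul_nonneg (by positivity) (gs_nonneg _))

include hl hk in
theorem FF_one (b N : ℕ) : ∑ a ∈ range N, FF l A (2 ^ b) (2 ^ (1 + a) * 1 + 1) ≤
    1048576 * (l ^ b / (1 - l)) := by
  have hl1 : l < 1 := by linarith
  calc _ ≤ ∑ a ∈ range N, (if b ≤ 1 + a then 1048576 * l ^ (1 + a) else 0) := by
        refine sum_le_sum fun a _ => ?_
        split_ifs with h
        · refine (FF_le hl A _ a one_ne_zero).trans ?_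
          rw [W_one, one_mul, mul_comm]
          exact mul_le_mul_of_nonneg_right (gs_le _) (by positivity)
        · refine (if_neg fun h' => ?_).le
          have h1 : 2 ^ (1 + a + 1) ≤ 2 ^ b := Nat.pow_le_pow_right (by norm_num) (by omega)
          have h2 : 0 < 2 ^ (1 + a) := by positivity
          have h3 := h'.2
          rw [pow_succ] at h1
          omega
    _ = ∑ a ∈ Ico 1 (N + 1), (if b ≤ a then 1048576 * l ^ a else 0) := by
        rw [sum_Ico_eq_sum_range, Nat.add_sub_cancel]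
    _ = ∑ a ∈ {a ∈ Ico 1 (N + 1) | b ≤ a}, 1048576 * l ^ a := (sum_filter _ _).symm
    _ ≤ ∑ a ∈ Ico b (N + 1), 1048576 * l ^ a := by
        refine sum_le_sum_of_subset_of_nonneg (fun a ha => ?_) fun a _ _ => by positivity
        simp only [mem_filter, mem_Ico] at ha ⊢
        exact ⟨ha.2, ha.1.2⟩
    _ ≤ _ := by
        rw [← mul_sum]
        exact mul_le_mul_of_nonneg_left (geom_sum_Ico_le_of_lt_one hl.le hl1) (by norm_num)

include hl hk in
theorem PP_succ {b : ℕ} (hb : 4 ≤ b) (x : ℕ) : PP l A (x + 1) ≤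
    (2 ^ b + 1) * ((((2 ^ b : ℕ) : ℝ) / ((2 ^ b : ℕ) + 1)) ^ A * 1048576) +
      1048576 * (l ^ b / (1 - l)) +
      l * (2461 / 2000) * (PP l A x + 1048576 * (PP l A x * ZZ l A x)) := by
  have hq : 16 ≤ 2 ^ b := le_trans (by norm_num) (Nat.pow_le_pow_right (by norm_num : 0 < 2) hb)
  rw [PP, ← sum_filter_add_sum_filter_not (Pr (x + 1)) fun p => p ≤ 2 ^ b, add_assoc]
  refine add_le_add ?_ ?_
  · calc _ ≤ #{p ∈ Pr (x + 1) | p ≤ 2 ^ b} •
          ((((2 ^ b : ℕ) : ℝ) / ((2 ^ b : ℕ) + 1)) ^ A * 1048576) := by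
          refine sum_le_card_nsmul _ _ _ fun p hp => ?_
          simp only [Pr, mem_filter] at hp
          exact mul_le_mul (W_small hl hk A hp.1.2.1 hp.1.2.2 hp.2) (ps_le p) (by positivity)
            (by positivity)
      _ ≤ _ := by
          rw [nsmul_eq_mul]
          have : #{p ∈ Pr (x + 1) | p ≤ 2 ^ b} ≤ 2 ^ b + 1 := by
            refine (card_le_card (t := range (2 ^ b + 1)) fun p hp => ?_).trans (card_range _).le
            exact mem_range.2 (Nat.lt_succ_of_le (mem_filter.1 hp).2)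
          exact mul_le_mul_of_nonneg_right (by exact_mod_cast this) (by positivity)
  · have h1 : 1 ∉ Od x := by simp [Od]
    calc _ = ∑ p ∈ {p ∈ Pr (x + 1) | ¬p ≤ 2 ^ b}, FF l A (2 ^ b) p := by
          refine sum_congr rfl fun p hp => ?_
          simp only [Pr, mem_filter] at hp
          rw [FF, if_pos ⟨hp.1.2.1, by omega⟩, gs_prime hp.1.2.1 (by omega)]
      _ ≤ ∑ t ∈ insert 1 (Od x) ×ˢ range x, FF l A (2 ^ b) (2 ^ (1 + t.2) * t.1 + 1) := by
          refine sum_le_of_cover (fun t : ℕ × ℕ => 2 ^ (1 + t.2) * t.1 + 1) (FF_nonneg hl A _)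
            fun p hp => ?_
          simp only [Pr, mem_filter, mem_range] at hp
          obtain ⟨⟨hx, hp, h2⟩, h3⟩ := hp
          obtain ⟨a, m, hm, e⟩ := Nat.exists_eq_two_pow_mul_odd (show p - 1 ≠ 0 by omega)
          have ho := hp.odd_of_ne_two h2
          have hm0 : 0 < m := hm.pos
          obtain _ | a := a
          · obtain ⟨k, hk⟩ := ho
            obtain ⟨j, hj⟩ := hm
            omega
          have ha : a + 1 < 2 ^ (a + 1) := Nat.lt_two_pow_self
          have h4 : 2 ^ (a + 1) ≤ 2 ^ (a + 1) * m := Nat.le_mul_of_pos_right _ hm0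
          have h5 : m ≤ 2 ^ (a + 1) * m := Nat.le_mul_of_pos_left _ (by positivity)
          refine ⟨(m, a), ?_, by rw [add_comm 1 a]; show 2 ^ (a + 1) * m + 1 = p; omega⟩
          simp only [Od, mem_product, mem_insert, mem_filter, mem_range]
          refine ⟨?_, by omega⟩
          by_cases h6 : m = 1
          · exact Or.inl h6
          · exact Or.inr ⟨by omega, hm, by omega⟩
      _ ≤ _ := by
          rw [sum_product, sum_insert h1]
          refine add_le_add (FF_one hl hk A b x) ?_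
          refine le_trans ?_ (mul_le_mul_of_nonneg_left (Od_ps_le hl A x) (by positivity))
          rw [mul_sum]
          refine sum_le_sum fun m hm => ?_
          have hm0 : m ≠ 0 := by simp only [Od, mem_filter] at hm; omega
          calc _ ≤ ∑ a ∈ range x, W l A m * (l ^ (1 + a) * gs (2 ^ (1 + a) * m + 1)) :=
                sum_le_sum fun a _ => FF_le hl A _ a hm0
            _ ≤ W l A m * (l * (2461 / 2000) * ps m) := by
                rw [← mul_sum]
                exact mul_le_mul_of_nonneg_left (chain hl hk x m) (W_nonneg hl A m)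
            _ = _ := by ring

include hl hk in
theorem exists_PP_le : ∃ A : ℕ, ∀ x, PP l A x ≤ 1 / 2 := by
  have hl1 : l < 1 := by linarith
  set κ := l * (2461 / 2000) with hκ
  have hκ0 : 0 < κ := by positivity
  set η := (1 - κ) / (4 * 1048576) with hη
  have hη0 : 0 < η := div_pos (by linarith) (by norm_num)
  have hη1 : η ≤ 1 / 2 := by rw [hη, div_le_iff₀ (by norm_num)]; linarith
  set ε := (1 - κ) * η / 4 with hε
  have hε0 : 0 < ε := by have : 0 < 1 - κ := by linarith
                         positivity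
  obtain ⟨n, hn⟩ := exists_pow_lt_of_lt_one
    (show 0 < ε * (1 - l) / 1048576 from div_pos (mul_pos hε0 (by linarith)) (by norm_num)) hl1
  have hb : 1048576 * (l ^ (n + 4) / (1 - l)) ≤ ε := by
    have h1 : l ^ (n + 4) ≤ l ^ n := pow_le_pow_of_le_one hl.le hl1.le (by omega)
    rw [lt_div_iff₀ (by norm_num)] at hn
    rw [← mul_div_assoc, div_le_iff₀ (by linarith)]
    linarith
  obtain ⟨A, hA⟩ := exists_pow_lt_of_lt_one
    (show 0 < ε / ((2 ^ (n + 4) + 1) * 1048576) by positivity)
    (show ((2 ^ (n + 4) : ℕ) : ℝ) / ((2 ^ (n + 4) : ℕ) + 1) < 1 from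
      (div_lt_one (by positivity)).2 (lt_add_one _))
  rw [lt_div_iff₀ (by positivity)] at hA
  have key : ∀ x, PP l A x ≤ η := by
    intro x
    induction x with
    | zero => simp [PP, Pr, hη0.le]
    | succ x ih =>
      have h1 := PP_succ hl hk A (b := n + 4) (by omega) x
      rw [← hκ] at h1
      have h2 := ZZ_le hl A (ih.trans hη1)
      have h3 := PP_nonneg hl A x
      have h4 := ZZ_nonneg hl A x
      have h5 : PP l A x * ZZ l A x ≤ η * (2 * η) := mul_le_mul ih (by linarith) h4 hη0.le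
      have h6 : 1048576 * (η * (2 * η)) = 2 * ε := by rw [hε, hη]; ring
      have h7 : κ * (PP l A x + 1048576 * (PP l A x * ZZ l A x)) ≤ κ * η + 2 * ε := by
        have h8 : κ * PP l A x ≤ κ * η := mul_le_mul_of_nonneg_left ih hκ0.le
        have h9 : κ * (1048576 * (PP l A x * ZZ l A x)) ≤ 1048576 * (PP l A x * ZZ l A x) :=
          mul_le_of_le_one_left (by positivity) hk.le
        linarith
      have h10 : κ * η + 4 * ε = η := by rw [hε]; ring
      linarith
  exact ⟨A, fun x => (key x).trans hη1⟩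

include hl hk in
theorem exists_sum_le : ∃ A : ℕ, ∀ x, ∑ n ∈ Icc 1 x, W l A n ≤ 2 / (1 - l) := by
  have hl1 : l < 1 := by linarith
  obtain ⟨A, hA⟩ := exists_PP_le hl hk
  refine ⟨A, fun x => ?_⟩
  have h1 : ∑ n ∈ {n ∈ Icc 1 x | Odd n}, W l A n ≤ 2 := by
    have h2 := ZZ_le hl A (hA (x + 1))
    have h3 := hA (x + 1)
    calc _ ≤ ∑ n ∈ insert 1 (Od (x + 1)), W l A n := by
          refine sum_le_sum_of_subset_of_nonneg (fun n hn => ?_) fun n _ _ => W_nonneg hl A n
          simp only [Od, mem_insert, mem_filter, mem_range, mem_Icc] at hn ⊢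
          by_cases h : n = 1
          · exact Or.inl h
          · exact Or.inr ⟨by omega, hn.2, by omega⟩
      _ = 1 + ZZ l A (x + 1) := by rw [sum_insert (by simp [Od]), W_one, ZZ]
      _ ≤ 2 := by linarith
  have h2 : ∑ n ∈ {n ∈ Icc 1 x | ¬Odd n}, W l A n ≤ l * ∑ n ∈ Icc 1 x, W l A n := by
    calc _ ≤ ∑ n ∈ Icc 1 x, W l A (2 * n) := by
          refine sum_le_of_cover (fun n => 2 * n) (W_nonneg hl A) fun n hn => ?_
          simp only [mem_filter, mem_Icc, Nat.not_odd_iff_even] at hn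
          obtain ⟨h3, k, hk⟩ := hn
          exact ⟨k, mem_Icc.2 (by omega), by omega⟩
      _ = _ := by
          rw [mul_sum]
          refine sum_congr rfl fun n hn => ?_
          have := W_two_pow (l := l) A 1
          rw [pow_one, pow_one] at this
          rw [W_mul A two_ne_zero (by have := (mem_Icc.1 hn).1; omega), this]
  rw [le_div_iff₀ (by linarith)]
  have h3 := sum_filter_add_sum_filter_not (Icc 1 x) Odd (W l A)
  linarith

end

theorem count_le (K : ℕ) : ∃ C : ℝ, ∀ x : ℕ, ∀ T : Finset ℕ,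
    (∀ n ∈ T, 1 ≤ n ∧ n ≤ x ∧ n ≤ K * 2 ^ D n) → (#T : ℝ) ≤ C * (x : ℝ) ^ (3 / 10 : ℝ) := by
  set l : ℝ := 2 ^ (-(3 / 10) : ℝ) with hl'
  have hl : 0 < l := by positivity
  have hk : l * (2461 / 2000) < 1 := by
    refine (pow_lt_one_iff_of_nonneg (by positivity) (by norm_num : 10 ≠ 0)).1 ?_
    rw [mul_pow, hl', ← Real.rpow_natCast, ← Real.rpow_mul (by norm_num)]
    rw [show (-(3 / 10) * ((10 : ℕ) : ℝ)) = ((-3 : ℤ) : ℝ) by norm_num, Real.rpow_intCast]
    norm_num
  obtain ⟨A, hA⟩ := exists_sum_le hl hk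
  refine ⟨K ^ A * (2 / (1 - l)), fun x T hT => ?_⟩
  calc (#T : ℝ) = ∑ n ∈ T, 1 := by simp
    _ ≤ ∑ n ∈ T, K ^ A * (x : ℝ) ^ (3 / 10 : ℝ) * W l A n := by
        refine sum_le_sum fun n hn => ?_
        obtain ⟨h1, h2, h3⟩ := hT n hn
        have hn0 : (0 : ℝ) < n := by exact_mod_cast h1
        have h4 : (1 : ℝ) ≤ K * (2 ^ D n / n) := by
          rw [← mul_div_assoc, one_le_div hn0]; exact_mod_cast h3
        have h5 : (2 : ℝ) ^ D n ≤ x := by
          exact_mod_cast (two_pow_D_le n (by omega)).trans h2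
        have h6 : 1 ≤ (x : ℝ) ^ (3 / 10 : ℝ) * l ^ D n := by
          have e : ((2 : ℝ) ^ D n) ^ (3 / 10 : ℝ) * l ^ D n = 1 := by
            rw [hl', ← Real.rpow_natCast, ← Real.rpow_natCast, ← Real.rpow_mul (by norm_num),
              ← Real.rpow_mul (by norm_num), ← Real.rpow_add (by norm_num)]
            rw [show (D n : ℝ) * (3 / 10) + -(3 / 10) * (D n : ℝ) = 0 by ring, Real.rpow_zero]
          rw [← e]
          gcongr
        calc (1 : ℝ) ≤ (K * (2 ^ D n / n)) ^ A * ((x : ℝ) ^ (3 / 10 : ℝ) * l ^ D n) :=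
              one_le_mul_of_one_le_of_one_le (one_le_pow₀ h4) h6
          _ = _ := by rw [W, mul_pow]; ring
    _ ≤ K ^ A * (x : ℝ) ^ (3 / 10 : ℝ) * (2 / (1 - l)) := by
        rw [← mul_sum]
        refine mul_le_mul_of_nonneg_left (le_trans ?_ (hA x)) (by positivity)
        exact sum_le_sum_of_subset_of_nonneg
          (fun n hn => mem_Icc.2 ⟨(hT n hn).1, (hT n hn).2.1⟩) fun n _ _ => W_nonneg hl A n
    _ = _ := by ring

end Pool.Agent.Lib.MP_b09490_nt
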