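import Pool.Agent.Lib.MP_b09490_nt.Add
import Pool.Agent.Lib.MP_b09490_nt.Cert

/-! Rankin's method for the weight `(2 ^ D n / n) ^ A * l ^ D n`. -/

set_option autoImplicit false

noncomputable section

namespace Pool.Agent.Lib.MP_b09490_nt

open Finset

theorem sum_le_of_cover {α β : Type} [DecidableEq α] {A : Finset α} {T : Finset β} {f : α → ℝ}
    (g : β → α) (hf : ∀ a, 0 ≤ f a) (h : ∀ a ∈ A, ∃ t ∈ T, g t = a) :
    ∑ a ∈ A, f a ≤ ∑ t ∈ T, f (g t) := by
  rw [sum_comp f g]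
  calc ∑ a ∈ A, f a ≤ ∑ a ∈ T.image g, f a :=
        sum_le_sum_of_subset_of_nonneg (fun a ha => mem_image.2 (h a ha)) fun a _ _ => hf a
    _ ≤ _ := by
        refine sum_le_sum fun a ha => ?_
        obtain ⟨t, ht, rfl⟩ := mem_image.1 ha
        have : 1 ≤ #{s ∈ T | g s = g t} := card_pos.2 ⟨t, mem_filter.2 ⟨ht, rfl⟩⟩
        rw [nsmul_eq_mul]
        exact le_mul_of_one_le_left (hf _) (by exact_mod_cast this)

/-- The completely multiplicative weight. -/
def W (l : ℝ) (A n : ℕ) : ℝ := ((2 : ℝ) ^ D n / n) ^ A * l ^ D n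

/-- The eigenvector restricted to the reduced residues. -/
def gs (v : ℕ) : ℝ := if Nat.Coprime v 15015 then (ps v : ℝ) else 0

theorem one_le_ps (u : ℕ) : (1 : ℝ) ≤ ps u := by exact_mod_cast (ps_spec u).1

theorem ps_le (u : ℕ) : (ps u : ℝ) ≤ 1048576 := by exact_mod_cast (ps_lt u).le

theorem gs_nonneg (v : ℕ) : 0 ≤ gs v := by unfold gs; split_ifs <;> positivity

theorem gs_le (v : ℕ) : gs v ≤ 1048576 := by
  unfold gs; split_ifs
  · exact ps_le v
  · norm_num

theorem ps_step (u : ℕ) : (ps (2 * u) : ℝ) + gs (2 * u + 1) ≤ 2461 / 2000 * ps u := by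
  have h := (ps_spec u).2
  unfold gs
  split_ifs at h ⊢
  · have : (2000 : ℝ) * (ps (2 * u) + ps (2 * u + 1)) ≤ 2461 * ps u := by exact_mod_cast h
    linarith
  · have : (2000 : ℝ) * (ps (2 * u) + 0) ≤ 2461 * ps u := by exact_mod_cast h
    linarith

theorem gs_prime {p : ℕ} (hp : p.Prime) (h : 13 < p) : gs p = ps p := by
  refine if_pos ((Nat.Prime.coprime_iff_not_dvd hp).2 fun hd => ?_)
  rw [show 15015 = 3 * (5 * (7 * (11 * 13))) from rfl] at hd
  simp only [hp.dvd_mul] at hd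
  rcases hd with hd | hd | hd | hd | hd <;> have := Nat.le_of_dvd (by norm_num) hd <;> omega

section

variable {l : ℝ} (hl : 0 < l) (hk : l * (2461 / 2000) < 1) (A : ℕ)

include hl in
theorem W_nonneg (n : ℕ) : 0 ≤ W l A n := by unfold W; positivity

theorem W_mul {m n : ℕ} (hm : m ≠ 0) (hn : n ≠ 0) : W l A (m * n) = W l A m * W l A n := by
  unfold W
  rw [D_mul hm hn, pow_add, pow_add, Nat.cast_mul, ← div_mul_div_comm, mul_pow]; ring

theorem W_one : W l A 1 = 1 := by simp [W, D_one]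

theorem W_two_pow (a : ℕ) : W l A (2 ^ a) = l ^ a := by
  unfold W
  rw [D_two_pow, Nat.cast_pow, Nat.cast_ofNat, div_self (by positivity), one_pow, one_mul]

include hl in
theorem W_pred {p : ℕ} (hp : p.Prime) (h2 : p ≠ 2) : W l A p ≤ W l A (p - 1) := by
  unfold W
  have h1 : (0 : ℝ) < (p - 1 : ℕ) := by have := hp.two_le; exact_mod_cast (by omega : 0 < p - 1)
  rw [D_pred hp h2]
  gcongr
  omega

include hl hk in
theorem W_small {p q : ℕ} (hp : p.Prime) (h2 : p ≠ 2) (hq : p ≤ q) :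
    W l A p ≤ ((q : ℝ) / (q + 1)) ^ A := by
  have h1 : 2 ^ D p + 1 ≤ p := by
    have := hp.two_le
    have h3 := two_pow_D_le (p - 1) (by omega)
    rw [D_pred hp h2]; omega
  have h1' : (2 : ℝ) ^ D p + 1 ≤ p := by exact_mod_cast h1
  have hq' : (p : ℝ) ≤ q := by exact_mod_cast hq
  have hp0 : (0 : ℝ) < p := by exact_mod_cast hp.pos
  have h3 : (2 : ℝ) ^ D p / p ≤ q / (q + 1) := by
    rw [div_le_div_iff₀ hp0 (by positivity)]
    nlinarith
  have h4 : l ^ D p ≤ 1 := pow_le_one₀ hl.le (by linarith)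
  unfold W
  calc _ ≤ ((q : ℝ) / (q + 1)) ^ A * 1 := by gcongr
    _ = _ := mul_one _

include hl hk in
theorem chain (N : ℕ) : ∀ m : ℕ, ∑ a ∈ range N, l ^ (1 + a) * gs (2 ^ (1 + a) * m + 1) ≤
    l * (2461 / 2000) * ps m := by
  induction N with
  | zero => intro m; rw [sum_range_zero]; positivity
  | succ N ih =>
    intro m
    rw [sum_range_succ']
    have e : ∑ a ∈ range N, l ^ (1 + (a + 1)) * gs (2 ^ (1 + (a + 1)) * m + 1) =
        l * ∑ a ∈ range N, l ^ (1 + a) * gs (2 ^ (1 + a) * (2 * m) + 1) := by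
      rw [mul_sum]
      refine sum_congr rfl fun a _ => ?_
      rw [show 2 ^ (1 + (a + 1)) * m = 2 ^ (1 + a) * (2 * m) by ring]; ring
    rw [e, add_zero, pow_one, pow_one]
    have h1 := ih (2 * m)
    have h2 := ps_step m
    have h3 : l * (2461 / 2000) * ps (2 * m) ≤ ps (2 * m) :=
      mul_le_of_le_one_left (by positivity) hk.le
    nlinarith

end

/-- The odd primes below `x`. -/
def Pr (x : ℕ) : Finset ℕ := {p ∈ range x | p.Prime ∧ p ≠ 2}

/-- The odd numbers in `(1, x)`. -/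
def Od (x : ℕ) : Finset ℕ := {m ∈ range x | Odd m ∧ 1 < m}

/-- The weighted sum over odd primes. -/
def PP (l : ℝ) (A x : ℕ) : ℝ := ∑ p ∈ Pr x, W l A p * ps p

/-- The sum over odd numbers. -/
def ZZ (l : ℝ) (A x : ℕ) : ℝ := ∑ m ∈ Od x, W l A m

section

variable {l : ℝ} (hl : 0 < l) (hk : l * (2461 / 2000) < 1) (A : ℕ)

include hl in
theorem PP_nonneg (x : ℕ) : 0 ≤ PP l A x :=
  sum_nonneg fun p _ => mul_nonneg (W_nonneg hl A p) (by positivity)

include hl in
theorem ZZ_nonneg (x : ℕ) : 0 ≤ ZZ l A x := sum_nonneg fun p _ => W_nonneg hl A p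

include hl in
theorem comp_le (x : ℕ) : ∑ m ∈ {m ∈ Od x | ¬m.Prime}, W l A m ≤ PP l A x * ZZ l A x := by
  calc _ ≤ ∑ t ∈ Pr x ×ˢ Od x, W l A (t.1 * t.2) := by
        refine sum_le_of_cover (fun t : ℕ × ℕ => t.1 * t.2) (W_nonneg hl A) fun m hm => ?_
        simp only [Od, mem_filter, mem_range] at hm
        obtain ⟨⟨h1, h2, h3⟩, h4⟩ := hm
        obtain ⟨n, hn⟩ := Nat.minFac_dvd m
        have hp := Nat.minFac_prime (show m ≠ 1 by omega)
        have hn0 : n ≠ 0 := by rintro rfl; omega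
        have hn1 : n ≠ 1 := by rintro rfl; rw [mul_one] at hn; exact h4 (hn ▸ hp)
        have ho := Nat.odd_mul.1 (hn ▸ h2)
        refine ⟨(m.minFac, n), ?_, hn.symm⟩
        simp only [Pr, Od, mem_product, mem_filter, mem_range]
        refine ⟨⟨(Nat.minFac_le (by omega)).trans_lt h1, hp, fun h => ?_⟩,
          (Nat.le_of_dvd (by omega) (Dvd.intro_left _ hn.symm)).trans_lt h1, ho.2, by omega⟩
        rw [h] at ho; exact absurd ho.1 (by decide)
    _ ≤ _ := by
        rw [PP, ZZ, sum_mul_sum, sum_product]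
        refine sum_le_sum fun p hp => sum_le_sum fun n hn => ?_
        simp only [Pr, Od, mem_filter] at hp hn
        rw [W_mul A hp.2.1.ne_zero (by omega)]
        exact mul_le_mul_of_nonneg_right (le_mul_of_one_le_right (W_nonneg hl A p) (one_le_ps p))
          (W_nonneg hl A n)

theorem Od_prime (x : ℕ) : {m ∈ Od x | m.Prime} = Pr x := by
  ext m
  simp only [Pr, Od, mem_filter]
  exact ⟨fun h => ⟨h.1.1, h.2, fun h2 => by rw [h2] at h; exact absurd h.1.2.1 (by decide)⟩,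
    fun h => ⟨⟨h.1, h.2.1.odd_of_ne_two h.2.2, h.2.1.one_lt⟩, h.2.1⟩⟩

include hl in
theorem ZZ_le {x : ℕ} (h : PP l A x ≤ 1 / 2) : ZZ l A x ≤ 2 * PP l A x := by
  have h1 := comp_le hl A x
  have h2 : ∑ p ∈ Pr x, W l A p ≤ PP l A x :=
    sum_le_sum fun p _ => le_mul_of_one_le_right (W_nonneg hl A p) (one_le_ps p)
  have h3 : ZZ l A x = ∑ p ∈ Pr x, W l A p + ∑ m ∈ {m ∈ Od x | ¬m.Prime}, W l A m := by
    rw [← Od_prime, sum_filter_add_sum_filter_not, ZZ]
  have h4 := ZZ_nonneg hl A x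
  nlinarith

include hl in
theorem Od_ps_le (x : ℕ) :
    ∑ m ∈ Od x, W l A m * ps m ≤ PP l A x + 1048576 * (PP l A x * ZZ l A x) := by
  rw [← sum_filter_add_sum_filter_not (Od x) Nat.Prime, Od_prime]
  have h1 := comp_le hl A x
  have h2 : ∑ m ∈ {m ∈ Od x | ¬m.Prime}, W l A m * ps m ≤
      1048576 * ∑ m ∈ {m ∈ Od x | ¬m.Prime}, W l A m := by
    rw [mul_sum]
    exact sum_le_sum fun m _ => by
      rw [mul_comm]; exact mul_le_mul_of_nonneg_right (ps_le m) (W_nonneg hl A m)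
  unfold PP at *
  linarith

end

end Pool.Agent.Lib.MP_b09490_nt
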